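import Pool.Agent.N459.HB.Pb
import Pool.Agent.N741.HB.Stm

/-!
# Project HB: generic data
-/

set_option autoImplicit false

namespace Pool.Agent.N459.HB

open Filter MvPolynomial Pool.Agent.Y902.GN
open Pool.Agent.N741.HB (InP PB GD S_gd)

/-- **HB/4** -/
theorem gd : S_gd := by
  classical
  intro Y N Om hY hG hb
  obtain ⟨F⟩ := FF.ex Y394.GN.t hY hG
  obtain ⟨c, hc⟩ := F.sp_bd hb
  refine ⟨{
    d := F.d
    ι := F.ι
    θ := fun ν t => eval t (sq F.A ν)
    h := sq F.H
    b0 := sq F.B₀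
    b := fun j => sq (F.B j)
    hPB := pb_of_re (Re.sq _)
    b0PB := pb_of_re (Re.sq _)
    bPB := fun j => pb_of_re (Re.sq _)
    θbd := ⟨c, hc.mono fun ν h t ht => h t ht none⟩
    ev_h := (F.mem (Re.sq F.H)).1 F.H0
    ev_b := ?_
    hne := ?_
    hone := ?_
    b0ne := ind_ne F F.B00 (Re.sq _)
    small := ?_
    sep := ?_
    div := ?_ }⟩
  · have h1 := (Re.sq F.B0).eq ((Re.sq F.B₀).rename some)
    filter_upwards [h1, Filter.eventually_all.2 F.rel] with ν a b t ht j
    have h2 := b j t ht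
    rw [a, ev_sp] at h2
    exact h2
  · filter_upwards [pd_ne F hG] with ν a h0
    rw [h0, map_zero] at a
    exact a rfl
  · filter_upwards [pd_ne F hG] with ν a h0
    obtain ⟨c, hc, hd⟩ := h0
    exact a (pd_zero hc hd)
  · intro c hc hc0 hbig
    obtain ⟨P, hP⟩ := re_of_pb hc
    have h1 : rename F.ι P ∈ JI Y Om := by
      by_contra h2
      refine hG.notBig (hP.rename F.ι) h2 (Filter.Eventually.of_forall fun ν =>
        Finset.filter_subset _ _) (Filter.Eventually.of_forall fun ν t ht => ?_) hbig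
      rw [eval_rename]
      exact (Finset.mem_filter.1 ht).2
    have h2 := F.ind P h1
    rw [h2] at hP
    obtain ⟨ν, a, b⟩ := (hc0.and (hP.eq Re.zero)).exists
    exact a b
  · exact F.notBig hG ((Re.sq F.H).pderiv none) F.HT (Filter.Eventually.of_forall fun ν =>
      Finset.filter_subset _ _) (Filter.Eventually.of_forall fun ν t ht =>
      (Finset.mem_filter.1 ht).2)
  · intro p hp hbig
    obtain ⟨P, hP⟩ := re_of_pb hp
    have h1 : sb F.ι F.A P ∈ JI Y Om := by
      by_contra h2
      exact F.notBig hG hP h2 (Filter.Eventually.of_forall fun ν =>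
        Finset.filter_subset _ _) (Filter.Eventually.of_forall fun ν t ht =>
        (Finset.mem_filter.1 ht).2) hbig
    obtain ⟨c, Q, hc, hQ⟩ := F.dvd P h1
    have h2 := ((Re.sq c).rename some).mul hP
    rw [hQ] at h2
    filter_upwards [ind_ne F hc (Re.sq c), h2.eq ((Re.sq F.H).mul (Re.sq Q))] with ν a b
    exact ⟨sq c ν, a, ⟨sq Q ν, b⟩⟩

end Pool.Agent.N459.HB
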