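import Mathlib
import Pool.Agent.Y902.GN.Core
import Pool.Agent.Y394.GN.Alg

/-!
# Project HB: polynomials over the ring of nonstandard integers of polynomial size
-/

set_option autoImplicit false

namespace Pool.Agent.N459.HB

open Filter MvPolynomial Pool.Agent.Y902.GN

/-- a copy of `N741.HB.PB` -/
def PB' (Y : ℕ → ℕ) {σ : Type} (p : ℕ → MvPolynomial σ ℤ) : Prop :=
  ∃ C : ℕ, ∀ᶠ ν in (Uf : Filter ℕ), (p ν).totalDegree ≤ C ∧
    ∀ m, |(p ν).coeff m| ≤ ((Y ν : ℤ) + 2) ^ C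

section

variable {Y : ℕ → ℕ} {σ : Type}

theorem pb_of_re {P : MvPolynomial σ (OO Y)} : ∀ {p : ℕ → MvPolynomial σ ℤ}, Re P p → PB' Y p := by
  classical
  induction P using MvPolynomial.induction_on with
  | C a =>
    intro p hp
    obtain ⟨f, hf⟩ := rep_exists a
    have h1 := hp.eq (Re.C (σ := σ) hf)
    have h2 : ((f : ZS) ∈ OO Y) := by rw [← hf]; exact a.2
    obtain ⟨C, hC⟩ := mem_OO.1 h2
    refine ⟨C, ?_⟩
    filter_upwards [h1, hC] with ν h3 h4
    rw [h3]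
    refine ⟨by rw [totalDegree_C]; exact Nat.zero_le _, fun m => ?_⟩
    rw [coeff_C]
    split_ifs
    · exact h4
    · rw [abs_zero]
      positivity
  | add P Q hP hQ =>
    intro p hp
    obtain ⟨p1, hp1⟩ := Re.ex P
    obtain ⟨q1, hq1⟩ := Re.ex Q
    obtain ⟨C1, hC1⟩ := hP hp1
    obtain ⟨C2, hC2⟩ := hQ hq1
    refine ⟨max C1 C2 + 1, ?_⟩
    filter_upwards [hp.eq (hp1.add hq1), hC1, hC2] with ν h3 h4 h5
    rw [h3]
    refine ⟨(totalDegree_add _ _).trans ?_, fun m => ?_⟩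
    · have := h4.1
      have := h5.1
      omega
    · rw [coeff_add]
      have a0 : (1 : ℤ) ≤ (Y ν : ℤ) + 2 := by omega
      have a1 := (h4.2 m).trans (pow_le_pow_right₀ a0 (le_max_left C1 C2))
      have a2 := (h5.2 m).trans (pow_le_pow_right₀ a0 (le_max_right C1 C2))
      have a3 := abs_add_le (coeff m (p1 ν)) (coeff m (q1 ν))
      have a4 : (0 : ℤ) ≤ ((Y ν : ℤ) + 2) ^ (max C1 C2) := by positivity
      calc |coeff m (p1 ν) + coeff m (q1 ν)| ≤ 2 * ((Y ν : ℤ) + 2) ^ (max C1 C2) := by linarith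
        _ ≤ ((Y ν : ℤ) + 2) * ((Y ν : ℤ) + 2) ^ (max C1 C2) :=
            mul_le_mul_of_nonneg_right (by omega) a4
        _ = _ := by rw [pow_succ]; ring
  | mul_X P j hP =>
    intro p hp
    obtain ⟨p1, hp1⟩ := Re.ex P
    obtain ⟨C1, hC1⟩ := hP hp1
    refine ⟨C1 + 1, ?_⟩
    filter_upwards [hp.eq (hp1.mul (Re.X j)), hC1] with ν h3 h4
    rw [h3]
    have a0 : (1 : ℤ) ≤ (Y ν : ℤ) + 2 := by omega
    refine ⟨(totalDegree_mul _ _).trans ?_, fun m => ?_⟩
    · rw [totalDegree_X]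
      have := h4.1
      omega
    · rw [coeff_mul_X']
      split_ifs
      · exact (h4.2 _).trans (pow_le_pow_right₀ a0 (Nat.le_succ _))
      · rw [abs_zero]
        positivity

theorem Re.pow' {P : MvPolynomial σ (OO Y)} {p : ℕ → MvPolynomial σ ℤ} (hp : Re P p) (n : ℕ) :
    Re (P ^ n) (fun ν => p ν ^ n) := by
  have := Re.prod (Finset.range n) (P := fun _ => P) (p := fun _ => p) fun _ _ => hp
  simpa using this

theorem Re.mon (m : σ →₀ ℕ) {c : OO Y} {f : ℕ → ℤ} (h : (c : ZS) = (f : ZS)) :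
    Re (monomial m c) (fun ν => monomial m (f ν)) := by
  classical
  have h1 := (Re.C (σ := σ) h).mul (Re.prod m.support
    (P := fun i => (X i : MvPolynomial σ (OO Y)) ^ m i) (p := fun i _ => X i ^ m i)
    fun i _ => Re.pow' (Re.X i) (m i))
  simp only [monomial_eq]
  exact h1

theorem re_of_pb [Finite σ] {p : ℕ → MvPolynomial σ ℤ} (hp : PB' Y p) :
    ∃ P : MvPolynomial σ (OO Y), Re P p := by
  classical
  have := Fintype.ofFinite σ
  obtain ⟨C, hC⟩ := hp
  have h1 : ∀ m : σ →₀ ℕ, ((fun ν => (p ν).coeff m : ℕ → ℤ) : ZS) ∈ OO Y := fun m =>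
    mem_OO.2 ⟨C, hC.mono fun ν h => h.2 m⟩
  let S : Finset (σ →₀ ℕ) := Finset.Icc 0 (Finsupp.equivFunOnFinite.symm fun _ => C)
  refine ⟨∑ m ∈ S, monomial m ⟨_, h1 m⟩, ?_⟩
  have h2 := Re.sum S (P := fun m => monomial m (⟨_, h1 m⟩ : OO Y))
    (p := fun m ν => monomial m ((p ν).coeff m)) fun m _ => Re.mon m rfl
  refine h2.congr ?_
  filter_upwards [hC] with ν h3
  conv_rhs => rw [(p ν).as_sum]
  symm
  apply Finset.sum_subset
  · intro m hm
    rw [Finset.mem_Icc]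
    refine ⟨zero_le, fun i => ?_⟩
    simp only [Finsupp.equivFunOnFinite_symm_apply_apply]
    exact (monomial_le_degreeOf i hm).trans ((degreeOf_le_totalDegree _ _).trans h3.1)
  · intro m _ hm
    rw [notMem_support_iff.1 hm, monomial_zero]

end

section

variable {Y : ℕ → ℕ} {N : ℕ} {Om : ℕ → Finset (Fin N → ℤ)}

theorem ind_ne (F : FF Y Om) {P : MvPolynomial (Fin F.d) (OO Y)} (hP : P ≠ 0)
    {p : ℕ → MvPolynomial (Fin F.d) ℤ} (hp : Re P p) : ∀ᶠ ν in (Uf : Filter ℕ), p ν ≠ 0 := by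
  rw [ev_not]
  intro h
  apply hP
  apply F.ind
  rw [mem_JI (hp.rename F.ι)]
  filter_upwards [h] with ν a t _
  rw [a, map_zero, map_zero]

theorem pd_ne (F : FF Y Om) (hG : Gen Y Om) :
    ∀ᶠ ν in (Uf : Filter ℕ), pderiv none (sq F.H ν) ≠ 0 := by
  rw [ev_not]
  intro h
  refine F.notBig hG ((Re.sq F.H).pderiv none) F.HT (Om' := Om)
    (Filter.Eventually.of_forall fun ν => subset_rfl) ?_ hG.1
  filter_upwards [h] with ν a t _
  rw [a, map_zero]

theorem pd_zero {d : ℕ} {h : MvPolynomial (Option (Fin d)) ℤ} {c : MvPolynomial (Fin d) ℤ}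
    (hc : c ≠ 0) (hd : h ∣ rename some c * 1) : pderiv none h = 0 := by
  classical
  obtain ⟨q, hq⟩ := hd
  rw [mul_one] at hq
  have hc' : rename (some : Fin d → Option (Fin d)) c ≠ 0 := fun h0 =>
    hc (rename_injective _ (Option.some_injective _) (by rw [h0, map_zero]))
  have hh : h ≠ 0 := by
    rintro rfl
    rw [zero_mul] at hq
    exact hc' hq
  have hq0 : q ≠ 0 := by
    rintro rfl
    rw [mul_zero] at hq
    exact hc' hq
  apply pderiv_eq_zero_of_notMem_vars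
  rw [mem_vars_iff_degreeOf_ne_zero, not_not]
  have h1 : degreeOf none (rename (some : Fin d → Option (Fin d)) c) = 0 := by
    by_contra h2
    rw [← ne_eq, ← mem_vars_iff_degreeOf_ne_zero] at h2
    have h3 := vars_rename _ _ h2
    rw [Finset.mem_image] at h3
    obtain ⟨a, _, ha⟩ := h3
    exact Option.some_ne_none a ha
  rw [hq, degreeOf_mul_eq hh hq0] at h1
  omega

theorem ev_sp (F : FF Y Om) (ν : ℕ) (t : Fin N → ℤ) (p : MvPolynomial (Fin F.d) ℤ) :
    eval (F.sp ν t) (rename some p) = eval (fun b => t (F.ι b)) p := by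
  rw [eval_rename]
  rfl

end

end Pool.Agent.N459.HB
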